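import Mathlib

/-! Roots of `c r^m = 1` and the inequality between traces and degrees. -/

namespace Pool.Agent.H964R2.Core

open Finset

/-- The roots of `c * r ^ m = 1`. -/
theorem rootset (c : ℂ) (hc : c ≠ 0) (m : ℕ) (hm : 0 < m) :
    ∃ R : Finset ℂ, (∀ r, r ∈ R ↔ c * r ^ m = 1) ∧ R.card = m ∧
      ∑ r ∈ R, r⁻¹ = if m = 1 then c else 0 := by
  classical
  obtain ⟨r0, hr0⟩ := IsAlgClosed.exists_pow_nat_eq (c⁻¹) hm
  have hr00 : r0 ≠ 0 := by
    rintro rfl
    rw [zero_pow hm.ne'] at hr0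
    exact inv_ne_zero hc hr0.symm
  set ζ : ℂ := Complex.exp (2 * Real.pi * Complex.I / m) with hζdef
  have hζ : IsPrimitiveRoot ζ m := Complex.isPrimitiveRoot_exp m hm.ne'
  have hζ0 : ζ ≠ 0 := Complex.exp_ne_zero _
  have hinj : Set.InjOn (fun k : ℕ => r0 * ζ ^ k) (Finset.range m) := by
    intro a ha b hb hab
    have h1 : ζ ^ a = ζ ^ b := mul_left_cancel₀ hr00 hab
    exact hζ.pow_inj (by simpa using ha) (by simpa using hb) h1
  refine ⟨(Finset.range m).image (fun k => r0 * ζ ^ k), ?_, ?_, ?_⟩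
  · intro r
    rw [Finset.mem_image]
    constructor
    · rintro ⟨k, _, rfl⟩
      rw [mul_pow, hr0, ← pow_mul, mul_comm k m, pow_mul, hζ.pow_eq_one, one_pow, mul_one,
        mul_inv_cancel₀ hc]
    · intro h
      have h1 : (r / r0) ^ m = 1 := by
        rw [div_pow, hr0, div_inv_eq_mul, mul_comm]
        exact h
      have : NeZero m := ⟨hm.ne'⟩
      obtain ⟨k, hk, hk2⟩ := hζ.eq_pow_of_pow_eq_one h1
      refine ⟨k, Finset.mem_range.mpr hk, ?_⟩
      rw [hk2]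
      field_simp
  · rw [Finset.card_image_of_injOn hinj, Finset.card_range]
  · rw [Finset.sum_image hinj]
    have h2 : ∀ k ∈ Finset.range m, (r0 * ζ ^ k)⁻¹ = r0⁻¹ * (ζ⁻¹) ^ k := by
      intro k _
      rw [mul_inv, inv_pow]
    rw [Finset.sum_congr rfl h2, ← Finset.mul_sum]
    split_ifs with h1
    · subst h1
      simp only [Finset.range_one, Finset.sum_singleton, pow_zero, mul_one]
      rw [pow_one] at hr0
      rw [hr0, inv_inv]
    · rw [hζ.inv.geom_sum_eq_zero (by omega), mul_zero]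

theorem dsum {K : Type*} [Fintype K] (F : Finset ℂ) (R : K → Finset ℂ) (P : K → ℂ → Prop)
    [∀ k, DecidablePred (P k)] (hR1 : ∀ k r, r ∈ R k ↔ P k r) (hRF : ∀ k, R k ⊆ F) (g : ℂ → ℂ) :
    ∑ k, ∑ r ∈ R k, g r =
      ∑ r ∈ F, ((univ.filter (fun k => P k r)).card : ℂ) * g r := by
  classical
  have h1 : ∀ k, ∑ r ∈ R k, g r = ∑ r ∈ F, if P k r then g r else 0 := by
    intro k
    rw [← Finset.sum_filter]
    refine Finset.sum_congr ?_ (fun _ _ => rfl)
    ext r
    rw [Finset.mem_filter]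
    constructor
    · intro hr; exact ⟨hRF k hr, (hR1 k r).mp hr⟩
    · intro hr; exact (hR1 k r).mpr hr.2
  rw [Finset.sum_congr rfl (fun k _ => h1 k), Finset.sum_comm]
  refine Finset.sum_congr rfl (fun r _ => ?_)
  rw [← Finset.sum_filter, Finset.sum_const, nsmul_eq_mul]

/-- The main numerical inequality. -/
theorem count_ineq {K L : Type*} [Fintype K] [Fintype L] (lam : K → ℂ) (m : K → ℕ)
    (mu : L → ℂ) (d : L → ℕ) (hlam : ∀ k, ‖lam k‖ = 1) (hm : ∀ k, 0 < m k)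
    (hmu : ∀ l, ‖mu l‖ = 1) (hd : ∀ l, 2 ≤ d l)
    (h : ∀ t : ℂ, t ≠ 1 → (univ.filter (fun k => lam k * t ^ m k = 1)).card ≤
      (univ.filter (fun l => mu l * t ^ d l = 1)).card) :
    (∑ k, (m k : ℝ)) - ∑ l, (d l : ℝ) ≤ (∑ k ∈ univ.filter (fun k => m k = 1), lam k).re := by
  classical
  have hlam0 : ∀ k, lam k ≠ 0 := fun k h0 => by
    have := hlam k; rw [h0, norm_zero] at this; exact zero_ne_one this
  have hmu0 : ∀ k, mu k ≠ 0 := fun k h0 => by
    have := hmu k; rw [h0, norm_zero] at this; exact zero_ne_one this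
  choose R hR1 hR2 hR3 using fun k => rootset (lam k) (hlam0 k) (m k) (hm k)
  choose S hS1 hS2 hS3 using fun l => rootset (mu l) (hmu0 l) (d l) (by have := hd l; omega)
  set F : Finset ℂ := (univ.biUnion R) ∪ (univ.biUnion S) with hF
  have hRF : ∀ k, R k ⊆ F := fun k r hr => by
    rw [hF, mem_union, mem_biUnion]; exact Or.inl ⟨k, mem_univ _, hr⟩
  have hSF : ∀ k, S k ⊆ F := fun k r hr => by
    rw [hF, mem_union, mem_biUnion, mem_biUnion]; exact Or.inr ⟨k, mem_univ _, hr⟩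
  have hnorm : ∀ (c r : ℂ) (j : ℕ), 0 < j → ‖c‖ = 1 → c * r ^ j = 1 → ‖r‖ = 1 := by
    intro c r j hj hc hcr
    have h1 := congrArg norm hcr
    rw [norm_mul, hc, one_mul, norm_pow, norm_one] at h1
    exact (pow_eq_one_iff_of_nonneg (norm_nonneg _) hj.ne').mp h1
  have hFn : ∀ r ∈ F, ‖r‖ = 1 := by
    intro r hr
    rw [hF, mem_union, mem_biUnion, mem_biUnion] at hr
    rcases hr with ⟨k, _, hk⟩ | ⟨k, _, hk⟩
    · exact hnorm _ _ _ (hm k) (hlam k) ((hR1 k r).mp hk)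
    · exact hnorm _ _ _ (by have := hd k; omega) (hmu k) ((hS1 k r).mp hk)
  set α : ℂ → ℕ := fun r => (univ.filter (fun k => lam k * r ^ m k = 1)).card with hα
  set β : ℂ → ℕ := fun r => (univ.filter (fun l => mu l * r ^ d l = 1)).card with hβ
  have e1 : ∑ k ∈ univ.filter (fun k => m k = 1), lam k = ∑ r ∈ F, (α r : ℂ) * r⁻¹ := by
    rw [Finset.sum_filter, ← dsum F R (fun k r => lam k * r ^ m k = 1) hR1 hRF (fun r => r⁻¹)]
    exact Finset.sum_congr rfl (fun k _ => (hR3 k).symm)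
  have e2 : ∑ r ∈ F, (β r : ℂ) * r⁻¹ = 0 := by
    rw [← dsum F S (fun k r => mu k * r ^ d k = 1) hS1 hSF (fun r => r⁻¹)]
    refine Finset.sum_eq_zero (fun k _ => ?_)
    rw [hS3 k, if_neg (by have := hd k; omega)]
  have e3 : (∑ k, (m k : ℂ)) = ∑ r ∈ F, (α r : ℂ) := by
    have := dsum F R (fun k r => lam k * r ^ m k = 1) hR1 hRF (fun _ => 1)
    simp only [mul_one] at this
    rw [← this]
    refine Finset.sum_congr rfl (fun k _ => ?_)
    rw [Finset.sum_const, hR2 k]; simp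
  have e4 : (∑ k, (d k : ℂ)) = ∑ r ∈ F, (β r : ℂ) := by
    have := dsum F S (fun k r => mu k * r ^ d k = 1) hS1 hSF (fun _ => 1)
    simp only [mul_one] at this
    rw [← this]
    refine Finset.sum_congr rfl (fun k _ => ?_)
    rw [Finset.sum_const, hS2 k]; simp
  have e3' : (∑ k, (m k : ℝ)) = ∑ r ∈ F, (α r : ℝ) := by exact_mod_cast e3
  have e4' : (∑ k, (d k : ℝ)) = ∑ r ∈ F, (β r : ℝ) := by exact_mod_cast e4
  have e5 : (∑ k ∈ univ.filter (fun k => m k = 1), lam k).re =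
      ∑ r ∈ F, ((α r : ℝ) - β r) * (r⁻¹).re := by
    rw [e1, ← sub_zero (∑ r ∈ F, (α r : ℂ) * r⁻¹), ← e2, ← Finset.sum_sub_distrib, Complex.re_sum]
    refine Finset.sum_congr rfl (fun r _ => ?_)
    rw [← sub_mul]
    simp
  rw [e3', e4', e5, ← Finset.sum_sub_distrib]
  refine Finset.sum_le_sum (fun r hr => ?_)
  by_cases h1 : r = 1
  · subst h1; simp
  · have h2 : (α r : ℝ) ≤ β r := by exact_mod_cast h r h1
    have h3 : (r⁻¹).re ≤ 1 := by
      refine (Complex.re_le_norm _).trans ?_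
      rw [norm_inv, hFn r hr, inv_one]
    nlinarith

end Pool.Agent.H964R2.Core
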