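import Mathlib

/-! Eigenbases of a finite order automorphism preserving a finite family of homogeneous
polynomials. -/

namespace Pool.Agent.H964R2.Core

open MvPolynomial

/-- An invariant finite-dimensional subspace is spanned by eigenvectors. -/
theorem le_span_eig {Q : Type*} [AddCommGroup Q] [Module ℂ Q] (T : Module.End ℂ Q) {N : ℕ}
    (hN : 0 < N) (hT : T ^ N = 1) (U : Submodule ℂ Q) [FiniteDimensional ℂ U]
    (hU : ∀ u ∈ U, T u ∈ U) :
    U ≤ Submodule.span ℂ {q | q ∈ U ∧ ∃ μ : ℂ, μ ^ N = 1 ∧ T q = μ • q} := by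
  let f : Module.End ℂ U := T.restrict hU
  have hfc : ∀ (k : ℕ) (u : U), ((f ^ k) u : Q) = (T ^ k) u := by
    intro k
    induction k with
    | zero => intro u; rfl
    | succ k ih =>
      intro u
      rw [pow_succ, pow_succ, Module.End.mul_apply, Module.End.mul_apply, ih]
      rfl
  have hf : f ^ N = 1 := by
    ext u
    rw [hfc, hT]
    rfl
  have hss : f.IsSemisimple := by
    apply Module.End.isSemisimple_of_squarefree_aeval_eq_zero (p := Polynomial.X ^ N - 1)
    · apply Polynomial.Separable.squarefree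
      rw [Polynomial.X_pow_sub_one_separable_iff]
      exact_mod_cast hN.ne'
    · simp [hf]
  have htop : ⨆ μ : ℂ, f.eigenspace μ = ⊤ := by
    have h1 := Module.End.iSup_maxGenEigenspace_eq_top f
    rw [← h1]
    congr 1
    ext1 μ
    exact (hss.isFinitelySemisimple.maxGenEigenspace_eq_eigenspace μ).symm
  suffices hsuff : Submodule.map U.subtype (⨆ μ : ℂ, f.eigenspace μ) ≤
      Submodule.span ℂ {q | q ∈ U ∧ ∃ μ : ℂ, μ ^ N = 1 ∧ T q = μ • q} by
    rw [htop, Submodule.map_top, Submodule.range_subtype] at hsuff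
    exact hsuff
  rw [Submodule.map_iSup]
  apply iSup_le
  intro μ
  rintro _ ⟨v, hv, rfl⟩
  have hv' : f v = μ • v := Module.End.mem_eigenspace_iff.mp hv
  by_cases h0 : v = 0
  · rw [h0, map_zero]; exact Submodule.zero_mem _
  apply Submodule.subset_span
  refine ⟨?_, μ, ?_, ?_⟩
  · exact v.2
  · have h3 : ∀ k : ℕ, (f ^ k) v = μ ^ k • v := by
      intro k
      induction k with
      | zero => simp
      | succ k ih => rw [pow_succ', Module.End.mul_apply, ih, map_smul, hv', smul_smul, pow_succ]
    have h4 := h3 N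
    rw [hf] at h4
    have h5 : (μ ^ N - 1) • v = 0 := by
      rw [sub_smul, ← h4]; simp
    rcases smul_eq_zero.mp h5 with h6 | h6
    · exact sub_eq_zero.mp h6
    · exact absurd h6 h0
  · exact congrArg (Subtype.val) hv'

/-- Adapted eigenbasis. -/
theorem exists_adapted {n : ℕ} {w : Fin n → ℕ} {ι : Type*} [Finite ι]
    (T : MvPolynomial (Fin n) ℂ ≃ₐ[ℂ] MvPolynomial (Fin n) ℂ) {N : ℕ} (hN : 0 < N)
    (hT : T ^ N = 1) (x : ι → MvPolynomial (Fin n) ℂ) (e : ι → ℕ)
    (hx : ∀ i, IsWeightedHomogeneous w (x i) (e i))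
    (hTx : ∀ i, T (x i) ∈ Submodule.span ℂ (x '' {k | e k = e i})) :
    ∃ (K : Type) (_ : Fintype K) (b : K → MvPolynomial (Fin n) ℂ) (m : K → ℕ) (lam : K → ℂ),
      LinearIndependent ℂ b ∧
      (∀ k, T (b k) = lam k • b k) ∧ (∀ k, ‖lam k‖ = 1) ∧
      (∀ k, ∃ i, e i = m k) ∧
      (∀ d, Submodule.span ℂ (b '' {k | m k = d}) = Submodule.span ℂ (x '' {i | e i = d})) := by
  classical
  let U : ℕ → Submodule ℂ (MvPolynomial (Fin n) ℂ) := fun d =>
    Submodule.span ℂ (x '' {i | e i = d})
  have hUfin : ∀ d, FiniteDimensional ℂ (U d) := fun d =>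
    FiniteDimensional.span_of_finite ℂ (Set.toFinite _)
  let T' : Module.End ℂ (MvPolynomial (Fin n) ℂ) := T.toLinearMap
  have hT'pow : ∀ (k : ℕ) p, (T' ^ k) p = (T ^ k) p := by
    intro k
    induction k with
    | zero => intro p; rfl
    | succ k ih =>
      intro p
      rw [pow_succ, pow_succ, Module.End.mul_apply, AlgEquiv.mul_apply, ih]
      rfl
  have hT' : T' ^ N = 1 := by
    ext1 p
    apply LinearMap.ext
    intro q
    simp only [LinearMap.comp_apply]
    rw [hT'pow, hT]
    rfl
  have hUT : ∀ d, ∀ u ∈ U d, T' u ∈ U d := by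
    intro d u hu
    refine Submodule.span_induction (p := fun u _ => T' u ∈ U d) ?_ ?_ ?_ ?_ hu
    · rintro _ ⟨i, hi, rfl⟩
      have := hTx i
      rw [show e i = d from hi] at this
      exact this
    · rw [map_zero]; exact Submodule.zero_mem _
    · intro a b _ _ ha hb
      rw [map_add]; exact Submodule.add_mem _ ha hb
    · intro c a _ ha
      rw [map_smul]; exact Submodule.smul_mem _ _ ha
  have hUhom : ∀ d, ∀ u ∈ U d, IsWeightedHomogeneous w u d := by
    intro d u hu
    have h1 : U d ≤ weightedHomogeneousSubmodule ℂ w d := by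
      apply Submodule.span_le.mpr
      rintro _ ⟨i, hi, rfl⟩
      rw [SetLike.mem_coe, mem_weightedHomogeneousSubmodule]
      have := hx i
      rw [show e i = d from hi] at this
      exact this
    exact (mem_weightedHomogeneousSubmodule _ _ _ _).mp (h1 hu)
  let S : Set (MvPolynomial (Fin n) ℂ) :=
    {q | ∃ i, q ∈ U (e i) ∧ ∃ μ : ℂ, μ ^ N = 1 ∧ T q = μ • q}
  obtain ⟨s, hs1, hs2, hs3⟩ := exists_linearIndependent ℂ S
  have hspanS : Submodule.span ℂ S = Submodule.span ℂ (Set.range x) := by
    apply le_antisymm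
    · apply Submodule.span_le.mpr
      rintro q ⟨i, hq, -⟩
      exact Submodule.span_mono (Set.image_subset_range _ _) hq
    · apply Submodule.span_le.mpr
      rintro _ ⟨i, rfl⟩
      have h1 : x i ∈ U (e i) := Submodule.subset_span ⟨i, rfl, rfl⟩
      have h2 := le_span_eig T' hN hT' (U (e i)) (hUT _) h1
      refine Submodule.span_mono ?_ h2
      rintro q ⟨hq, μ, hμ, hμ2⟩
      exact ⟨i, hq, μ, hμ, hμ2⟩
  have hfin : FiniteDimensional ℂ (Submodule.span ℂ (Set.range x)) :=
    FiniteDimensional.span_of_finite ℂ (Set.finite_range x)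
  have hsfin : Finite s := by
    have h0 : Submodule.span ℂ (Set.range (Subtype.val : s → MvPolynomial (Fin n) ℂ)) =
        Submodule.span ℂ (Set.range x) := by
      rw [Subtype.range_coe, hs2, hspanS]
    have h1 : FiniteDimensional ℂ (Submodule.span ℂ
        (Set.range (Subtype.val : s → MvPolynomial (Fin n) ℂ))) := by
      rw [h0]; exact hfin
    exact (linearIndependent_span hs3).finite_of_isNoetherian
  obtain ⟨M, ⟨eqv⟩⟩ := Finite.exists_equiv_fin s
  have hs1' : ∀ k : Fin M, ∃ i, ((eqv.symm k : s) : MvPolynomial (Fin n) ℂ) ∈ U (e i) ∧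
      ∃ μ : ℂ, μ ^ N = 1 ∧ T (eqv.symm k : s) = μ • ((eqv.symm k : s) : MvPolynomial (Fin n) ℂ) :=
    fun k => hs1 (eqv.symm k).2
  choose i hi lam hlam hlamT using hs1'
  have hli : LinearIndependent ℂ
      (fun k : Fin M => ((eqv.symm k : s) : MvPolynomial (Fin n) ℂ)) :=
    hs3.comp _ eqv.symm.injective
  have hrange : Submodule.span ℂ (Set.range
      (fun k : Fin M => ((eqv.symm k : s) : MvPolynomial (Fin n) ℂ))) =
      Submodule.span ℂ (Set.range x) := by
    rw [← hspanS, ← hs2]
    congr 1
    ext q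
    constructor
    · rintro ⟨k, rfl⟩
      exact (eqv.symm k).2
    · intro hq
      exact ⟨eqv ⟨q, hq⟩, by simp⟩
  refine ⟨Fin M, inferInstance, fun k => (eqv.symm k : s), fun k => e (i k), lam, hli, hlamT, ?_,
    fun k => ⟨i k, rfl⟩, ?_⟩
  · intro k
    have h1 := congrArg norm (hlam k)
    rw [norm_pow, norm_one] at h1
    exact (pow_eq_one_iff_of_nonneg (norm_nonneg _) hN.ne').mp h1
  · intro d
    apply le_antisymm
    · apply Submodule.span_le.mpr
      rintro _ ⟨k, hk, rfl⟩
      have := hi k
      rw [show e (i k) = d from hk] at this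
      exact this
    · apply Submodule.span_le.mpr
      rintro _ ⟨j, hj, rfl⟩
      have h1 : x j ∈ Submodule.span ℂ (Set.range
          (fun k : Fin M => ((eqv.symm k : s) : MvPolynomial (Fin n) ℂ))) := by
        rw [hrange]; exact Submodule.subset_span ⟨j, rfl⟩
      rw [SetLike.mem_coe]
      obtain ⟨c, hc⟩ := (Submodule.mem_span_range_iff_exists_fun ℂ).mp h1
      have h2 : weightedHomogeneousComponent w d (x j) = x j := by
        have := hx j
        rw [show e j = d from hj] at this
        exact IsWeightedHomogeneous.weightedHomogeneousComponent_same this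
      rw [← h2, ← hc, map_sum]
      refine Submodule.sum_mem _ (fun k _ => ?_)
      rw [map_smul]
      apply Submodule.smul_mem
      by_cases hk : e (i k) = d
      · rw [IsWeightedHomogeneous.weightedHomogeneousComponent_same
          (hk ▸ hUhom _ _ (hi k))]
        exact Submodule.subset_span ⟨k, hk, rfl⟩
      · rw [(hUhom _ _ (hi k)).weightedHomogeneousComponent_ne d (Ne.symm hk)]
        exact Submodule.zero_mem _

/-- Number of basis vectors of a given degree. -/
theorem card_le {n : ℕ} {ι K : Type*} [Fintype ι] [Fintype K]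
    (x : ι → MvPolynomial (Fin n) ℂ) (e : ι → ℕ) (b : K → MvPolynomial (Fin n) ℂ) (m : K → ℕ)
    (hb : LinearIndependent ℂ b) (d : ℕ)
    (h : Submodule.span ℂ (b '' {k | m k = d}) ≤ Submodule.span ℂ (x '' {i | e i = d})) :
    (Finset.univ.filter (fun k => m k = d)).card ≤ (Finset.univ.filter (fun i => e i = d)).card := by
  classical
  have h1 : Module.finrank ℂ (Submodule.span ℂ (b '' {k | m k = d})) =
      (Finset.univ.filter (fun k => m k = d)).card := by
    have h2 : LinearIndependent ℂ (fun k : {k // m k = d} => b k) :=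
      hb.comp _ Subtype.val_injective
    have h3 := finrank_span_eq_card h2
    have h4 : Set.range (fun k : {k // m k = d} => b k) = b '' {k | m k = d} := by
      ext q; simp
    rw [h4] at h3
    rw [h3, Fintype.card_subtype]
  have h5 : FiniteDimensional ℂ (Submodule.span ℂ (x '' {i | e i = d})) :=
    FiniteDimensional.span_of_finite ℂ (Set.toFinite _)
  rw [← h1]
  refine (Submodule.finrank_mono h).trans ?_
  have h6 := finrank_range_le_card (R := ℂ) (fun k : {k // e k = d} => x k)
  have h7 : Set.range (fun k : {k // e k = d} => x k) = x '' {k | e k = d} := by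
    ext q; simp
  rw [Set.finrank, h7, Fintype.card_subtype] at h6
  exact h6

theorem sum_deg_le {ι K : Type*} [Fintype ι] [Fintype K] (e : ι → ℕ) (m : K → ℕ)
    (h : ∀ d, (Finset.univ.filter (fun k => m k = d)).card ≤
      (Finset.univ.filter (fun i => e i = d)).card) : ∑ k, m k ≤ ∑ i, e i := by
  classical
  set D : Finset ℕ := Finset.univ.image m ∪ Finset.univ.image e with hD
  have h1 : ∑ k, m k = ∑ d ∈ D, (Finset.univ.filter (fun k => m k = d)).card * d := by
    rw [← Finset.sum_fiberwise_of_maps_to (s := Finset.univ) (t := D) (g := m)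
      (fun k _ => by rw [hD]; exact Finset.mem_union_left _ (Finset.mem_image_of_mem _ (Finset.mem_univ _)))]
    refine Finset.sum_congr rfl (fun d _ => ?_)
    rw [Finset.sum_congr rfl (g := fun _ => d) (fun k hk => (Finset.mem_filter.mp hk).2),
      Finset.sum_const, smul_eq_mul]
  have h2 : ∑ k, e k = ∑ d ∈ D, (Finset.univ.filter (fun k => e k = d)).card * d := by
    rw [← Finset.sum_fiberwise_of_maps_to (s := Finset.univ) (t := D) (g := e)
      (fun k _ => by rw [hD]; exact Finset.mem_union_right _ (Finset.mem_image_of_mem _ (Finset.mem_univ _)))]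
    refine Finset.sum_congr rfl (fun d _ => ?_)
    rw [Finset.sum_congr rfl (g := fun _ => d) (fun k hk => (Finset.mem_filter.mp hk).2),
      Finset.sum_const, smul_eq_mul]
  rw [h1, h2]
  exact Finset.sum_le_sum (fun d _ => Nat.mul_le_mul_right _ (h d))

end Pool.Agent.H964R2.Core
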