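import Mathlib
import Pool.Agent.H952R2.Sextic.CommonZero

/-! Krull's height theorem applied to eigenspaces. -/

namespace Pool.Agent.H964R2.Core

open MvPolynomial

theorem eval_aeval' {σ τ : Type*} (u : τ → ℂ) (g : σ → MvPolynomial τ ℂ) (p : MvPolynomial σ ℂ) :
    eval u (aeval g p) = eval (fun i => eval u (g i)) p := by
  induction p using MvPolynomial.induction_on with
  | C a => simp
  | add p q hp hq => rw [map_add, map_add, hp, hq, map_add]
  | mul_X p i hp => rw [map_mul, map_mul, hp, aeval_X, map_mul, eval_X]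

theorem eval_equiv {n : ℕ} (T : MvPolynomial (Fin n) ℂ ≃ₐ[ℂ] MvPolynomial (Fin n) ℂ)
    (v : Fin n → ℂ) (p : MvPolynomial (Fin n) ℂ) :
    eval v (T p) = eval (fun i => eval v (T (X i))) p := by
  induction p using MvPolynomial.induction_on with
  | C a =>
    have : T (C a) = C a := by
      have := T.commutes a
      simpa [MvPolynomial.algebraMap_eq] using this
    rw [this]; simp
  | add p q hp hq => simp [hp, hq]
  | mul_X p i hp => simp [hp]

theorem eval_scale {n : ℕ} {w : Fin n → ℕ} {p : MvPolynomial (Fin n) ℂ} {d : ℕ}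
    (hp : IsWeightedHomogeneous w p d) (z : ℂ) (v : Fin n → ℂ) :
    eval (fun i => z ^ w i * v i) p = z ^ d * eval v p := by
  rw [MvPolynomial.eval_eq', MvPolynomial.eval_eq', Finset.mul_sum]
  refine Finset.sum_congr rfl (fun s hs => ?_)
  have h1 := hp (MvPolynomial.mem_support_iff.mp hs)
  have h2 : ∏ i, (z ^ w i * v i) ^ s i = z ^ d * ∏ i, v i ^ s i := by
    simp only [mul_pow, Finset.prod_mul_distrib, ← pow_mul]
    rw [Finset.prod_pow_eq_pow_sum]
    congr 2
    rw [← h1, Finsupp.weight_apply, Finsupp.sum_fintype _ _ (by intro i; simp)]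
    refine Finset.sum_congr rfl (fun i _ => ?_)
    rw [smul_eq_mul, mul_comm]
  rw [h2]; ring

theorem eval_zero_of_hom {n : ℕ} {w : Fin n → ℕ} {p : MvPolynomial (Fin n) ℂ} {d : ℕ}
    (hp : IsWeightedHomogeneous w p d) (hd : 0 < d) : eval 0 p = 0 := by
  have := eval_scale hp 0 (0 : Fin n → ℂ)
  rw [zero_pow hd.ne', zero_mul] at this
  rw [← this]
  congr 1
  congr 1
  funext i
  simp

theorem geo {n : ℕ} {w : Fin n → ℕ} (T : MvPolynomial (Fin n) ℂ ≃ₐ[ℂ] MvPolynomial (Fin n) ℂ)
    {K L : Type} [Fintype K] [Fintype L] (b : K → MvPolynomial (Fin n) ℂ) (m : K → ℕ)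
    (lam : K → ℂ) (hb : LinearIndependent ℂ b) (hTb : ∀ k, T (b k) = lam k • b k)
    (hm : ∀ k, 0 < m k)
    (hspan : ∀ d, Submodule.span ℂ (b '' {k | m k = d}) =
      Submodule.span ℂ ((X : Fin n → MvPolynomial (Fin n) ℂ) '' {i | w i = d}))
    (h : L → MvPolynomial (Fin n) ℂ) (d : L → ℕ) (mu : L → ℂ) (hd : ∀ l, 0 < d l)
    (hhom : ∀ l, IsWeightedHomogeneous w (h l) (d l)) (hTh : ∀ l, T (h l) = mu l • h l)
    (t : ℂ)
    (hinv : ∀ v : Fin n → ℂ, v ≠ 0 → (∀ l, eval v (h l) = 0) →
      (∀ i, eval v (T (X i)) = (t⁻¹) ^ (w i) * v i) → False) :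
    (Finset.univ.filter (fun k => lam k * t ^ m k = 1)).card ≤
      (Finset.univ.filter (fun l => mu l * t ^ d l = 1)).card := by
  classical
  by_contra hlt
  push Not at hlt
  -- coefficients
  have hX : ∀ i, (X i : MvPolynomial (Fin n) ℂ) ∈ Submodule.span ℂ (b '' {k | m k = w i}) := by
    intro i
    rw [hspan]
    exact Submodule.subset_span ⟨i, rfl, rfl⟩
  have hX' : ∀ i, ∃ a : K → ℂ, ∑ k, a k • b k = (X i : MvPolynomial (Fin n) ℂ) := by
    intro i
    exact (Submodule.mem_span_range_iff_exists_fun ℂ).mp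
      (Submodule.span_mono (Set.image_subset_range _ _) (hX i))
  choose a ha using hX'
  have hB : ∀ k, ∃ c : Fin n → ℂ, ∑ i, c i • (X i : MvPolynomial (Fin n) ℂ) = b k := by
    intro k
    have h1 : b k ∈ Submodule.span ℂ (b '' {k' | m k' = m k}) :=
      Submodule.subset_span ⟨k, rfl, rfl⟩
    rw [hspan] at h1
    exact (Submodule.mem_span_range_iff_exists_fun ℂ).mp
      (Submodule.span_mono (Set.image_subset_range _ _) h1)
  choose c hc using hB
  have hdelta : ∀ k k', ∑ i, c k i * a i k' = if k = k' then 1 else 0 := by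
    intro k k'
    have h1 : ∑ k', (∑ i, c k i * a i k') • b k' = b k := by
      rw [← hc k]
      simp only [← ha, Finset.smul_sum, Finset.sum_smul, smul_smul]
      rw [Finset.sum_comm]
    have h2 : ∑ k', ((∑ i, c k i * a i k') - if k = k' then 1 else 0) • b k' = 0 := by
      simp only [sub_smul, Finset.sum_sub_distrib]
      rw [h1]
      simp
    have h3 := (Fintype.linearIndependent_iff.mp hb) _ h2 k'
    exact sub_eq_zero.mp h3
  let I := {k : K // lam k * t ^ m k = 1}
  let J := {l : L // mu l * t ^ d l = 1}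
  let vv : (I → ℂ) → (Fin n → ℂ) := fun u i => ∑ k : I, a i k * u k
  have hev0 : ∀ (v : Fin n → ℂ) k, eval v (b k) = ∑ i, c k i * v i := by
    intro v k
    rw [← hc k, map_sum]
    refine Finset.sum_congr rfl (fun i _ => ?_)
    rw [smul_eval, eval_X]
  have hev : ∀ (u : I → ℂ) k, eval (vv u) (b k) = ∑ k' : I, if k = k' then u k' else 0 := by
    intro u k
    rw [hev0]
    simp only [vv, Finset.mul_sum]
    rw [Finset.sum_comm]
    refine Finset.sum_congr rfl (fun k' _ => ?_)
    have h1 := hdelta k k'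
    calc ∑ i, c k i * (a i k' * u k') = (∑ i, c k i * a i k') * u k' := by
          rw [Finset.sum_mul]
          refine Finset.sum_congr rfl (fun i _ => ?_)
          ring
      _ = if k = k' then u k' else 0 := by
          rw [h1]; split_ifs <;> simp
  have hevI : ∀ (u : I → ℂ) (k : I), eval (vv u) (b k) = u k := by
    intro u k
    rw [hev u k, Finset.sum_eq_single k]
    · rw [if_pos rfl]
    · intro k' _ hk'
      rw [if_neg]
      intro hkk
      exact hk' (Subtype.ext hkk.symm)
    · intro hk; exact absurd (Finset.mem_univ _) hk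
  have hevN : ∀ (u : I → ℂ) (k : K), ¬ (lam k * t ^ m k = 1) → eval (vv u) (b k) = 0 := by
    intro u k hk
    rw [hev u k]
    refine Finset.sum_eq_zero (fun k' _ => ?_)
    rw [if_neg]
    rintro rfl
    exact hk k'.2
  let H : J → MvPolynomial I ℂ := fun l => aeval (fun i => ∑ k : I, C (a i k) * X k) (h l)
  have hH : ∀ (u : I → ℂ) (l : J), eval u (H l) = eval (vv u) (h l) := by
    intro u l
    simp only [H]
    rw [eval_aeval']
    congr 2
    funext i
    simp [vv]
  have hcard : Fintype.card J < Fintype.card I := by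
    rw [Fintype.card_subtype, Fintype.card_subtype]
    exact hlt
  obtain ⟨u, hu0, hu⟩ := Pool.Agent.H952R2.Sextic.exists_common_zero hcard H (by
    intro l
    rw [hH]
    have : vv 0 = 0 := by funext i; simp [vv]
    rw [this]
    exact eval_zero_of_hom (hhom _) (hd _))
  obtain ⟨k0, hk0⟩ : ∃ k, u k ≠ 0 := by
    by_contra hcon
    push Not at hcon
    exact hu0 (funext hcon)
  have ht0 : t ≠ 0 := by
    rintro rfl
    have := k0.2
    rw [zero_pow (hm _).ne', mul_zero] at this
    exact zero_ne_one this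
  have hv0 : vv u ≠ 0 := by
    intro hv
    apply hk0
    rw [← hevI u k0, hev0, hv]
    simp
  have hscale : ∀ e, ∀ q ∈ Submodule.span ℂ (b '' {k | m k = e}),
      eval (vv u) (T q) = (t⁻¹) ^ e * eval (vv u) q := by
    intro e q hq
    refine Submodule.span_induction
      (p := fun q _ => eval (vv u) (T q) = (t⁻¹) ^ e * eval (vv u) q) ?_ ?_ ?_ ?_ hq
    · rintro _ ⟨k, hk, rfl⟩
      rw [hTb, smul_eval]
      by_cases hkI : lam k * t ^ m k = 1
      · rw [show m k = e from hk] at hkI
        rw [inv_pow, eq_inv_of_mul_eq_one_left hkI]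
      · rw [hevN u k hkI, mul_zero, mul_zero]
    · simp
    · intro x y _ _ hx hy
      rw [map_add, map_add, map_add, hx, hy, mul_add]
    · intro r x _ hx
      rw [map_smul, smul_eval, smul_eval, hx]
      ring
  have hTX : ∀ i, eval (vv u) (T (X i)) = (t⁻¹) ^ (w i) * (vv u) i := by
    intro i
    rw [hscale (w i) (X i) (hX i), eval_X]
  refine hinv (vv u) hv0 ?_ hTX
  intro l
  by_cases hl : mu l * t ^ d l = 1
  · rw [← hH u ⟨l, hl⟩]
    exact hu _
  · have h1 : eval (vv u) (T (h l)) = (t⁻¹) ^ (d l) * eval (vv u) (h l) := by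
      rw [eval_equiv]
      simp only [hTX]
      exact eval_scale (hhom l) _ _
    rw [hTh, smul_eval] at h1
    have h2 : (mu l - (t⁻¹) ^ (d l)) * eval (vv u) (h l) = 0 := by
      rw [sub_mul, h1, sub_self]
    rcases mul_eq_zero.mp h2 with h3 | h3
    · exfalso
      apply hl
      rw [sub_eq_zero.mp h3, ← mul_pow, inv_mul_cancel₀ ht0, one_pow]
    · exact h3

end Pool.Agent.H964R2.Core
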