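import Mathlib
import Pool.Agent.H964R2.Core.Count
import Pool.Agent.H964R2.Core.Eig
import Pool.Agent.H964R2.Core.Geo

/-! Invariants of degree one. -/

namespace Pool.Agent.H964R2.Core

open MvPolynomial

theorem trace_of_eigenbasis {V K : Type*} [AddCommGroup V] [Module ℂ V] [Fintype K]
    (b : Module.Basis K ℂ V) (f : V →ₗ[ℂ] V) (lam : K → ℂ) (h : ∀ k, f (b k) = lam k • b k) :
    LinearMap.trace ℂ V f = ∑ k, lam k := by
  classical
  rw [LinearMap.trace_eq_matrix_trace ℂ b, Matrix.trace]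
  refine Finset.sum_congr rfl (fun k _ => ?_)
  rw [Matrix.diag_apply, LinearMap.toMatrix_apply, h]
  simp

theorem avg {V G : Type*} [AddCommGroup V] [Module ℂ V] [FiniteDimensional ℂ V] [Group G]
    [Fintype G] (ρ : Representation ℂ G V) (c : ℝ)
    (h : ∀ g, c ≤ (LinearMap.trace ℂ V (ρ g)).re) :
    c ≤ Module.finrank ℂ ρ.invariants := by
  classical
  have hG : (Fintype.card G : ℂ) ≠ 0 := by exact_mod_cast Fintype.card_ne_zero
  let _inst : Invertible (Fintype.card G : ℂ) := invertibleOfNonzero hG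
  have h1 := (Representation.isProj_averageMap ρ).trace
  have h2 : LinearMap.trace ℂ V ρ.averageMap =
      (Fintype.card G : ℂ)⁻¹ * ∑ g, LinearMap.trace ℂ V (ρ g) := by
    rw [Representation.averageMap, GroupAlgebra.average]
    simp [map_sum]
  rw [h2] at h1
  have h3 : (Fintype.card G : ℝ)⁻¹ * ∑ g, (LinearMap.trace ℂ V (ρ g)).re =
      Module.finrank ℂ ρ.invariants := by
    have h4 := congrArg Complex.re h1
    rw [Complex.natCast_re] at h4
    rw [← h4, ← Complex.re_sum]
    rw [show (Fintype.card G : ℂ)⁻¹ = (((Fintype.card G : ℝ)⁻¹ : ℝ) : ℂ) by push_cast; rfl,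
      Complex.re_ofReal_mul]
  rw [← h3]
  have h5 : (0 : ℝ) < Fintype.card G := by exact_mod_cast Fintype.card_pos
  rw [inv_mul_eq_div, le_div_iff₀ h5]
  calc c * Fintype.card G = ∑ _g : G, c := by
        rw [Finset.sum_const, Finset.card_univ, nsmul_eq_mul, mul_comm]
    _ ≤ _ := Finset.sum_le_sum (fun g _ => h g)

/-- The degree `d` part of the ring of invariants `R^G`, where
`R = ℂ[x_1, ..., x_n] / (f_1, ..., f_c)` is graded by the weights `w`. -/
noncomputable def invPart {n c : ℕ} (w : Fin n → ℕ) (f : Fin c → MvPolynomial (Fin n) ℂ)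
    {G : Type} [Group G]
    (φ : G →* (MvPolynomial (Fin n) ℂ ≃ₐ[ℂ] MvPolynomial (Fin n) ℂ)) (d : ℕ) :
    Submodule ℂ (MvPolynomial (Fin n) ℂ ⧸ Ideal.span (Set.range f)) where
  carrier := {r | ∃ p, IsWeightedHomogeneous w p d ∧
    Ideal.Quotient.mk (Ideal.span (Set.range f)) p = r ∧
    ∀ g, Ideal.Quotient.mk (Ideal.span (Set.range f)) (φ g p) = r}
  zero_mem' := ⟨0, isWeightedHomogeneous_zero _ _ _, by simp, by simp⟩
  add_mem' := by
    rintro _ _ ⟨p, hp, rfl, hp2⟩ ⟨q, hq, rfl, hq2⟩
    exact ⟨p + q, hp.add hq, by simp, fun g => by rw [map_add, map_add, hp2, hq2]⟩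
  smul_mem' := by
    rintro c _ ⟨p, hp, rfl, hp2⟩
    refine ⟨c • p, ?_, rfl, fun g => ?_⟩
    · exact (weightedHomogeneousSubmodule ℂ w d).smul_mem c hp
    · rw [map_smul]
      change c • Ideal.Quotient.mk (Ideal.span (Set.range f)) (φ g p) = _
      rw [hp2]

theorem mem_span_X_of_hom {n : ℕ} {w : Fin n → ℕ} (hw : ∀ i, 0 < w i)
    {p : MvPolynomial (Fin n) ℂ} (hp : IsWeightedHomogeneous w p 1) :
    p ∈ Submodule.span ℂ ((X : Fin n → MvPolynomial (Fin n) ℂ) '' {i | w i = 1}) := by
  classical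
  rw [p.as_sum]
  refine Submodule.sum_mem _ (fun s hs => ?_)
  have h1 := hp (MvPolynomial.mem_support_iff.mp hs)
  rw [Finsupp.weight_apply, Finsupp.sum_fintype _ _ (by intro i; simp)] at h1
  have h2 : ∃ i, s i ≠ 0 := by
    by_contra hcon
    push Not at hcon
    simp [hcon] at h1
  obtain ⟨i, hi⟩ := h2
  have h3 : s i • w i + ∑ k ∈ Finset.univ.erase i, s k • w k = 1 := by
    rw [← h1]
    exact Finset.add_sum_erase _ (fun k => s k • w k) (Finset.mem_univ i)
  have h4 : 1 ≤ s i * w i := Nat.mul_pos (Nat.pos_of_ne_zero hi) (hw i)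
  rw [smul_eq_mul] at h3
  have h5 : s i * w i = 1 := by omega
  have h6 : ∑ k ∈ Finset.univ.erase i, s k • w k = 0 := by omega
  have h7 : s = Finsupp.single i 1 := by
    ext k
    by_cases hk : k = i
    · subst hk
      rw [Finsupp.single_eq_same]
      exact (mul_eq_one.mp h5).1
    · have h8 := (Finset.sum_eq_zero_iff.mp h6) k (Finset.mem_erase.mpr ⟨hk, Finset.mem_univ _⟩)
      rw [smul_eq_mul] at h8
      rcases Nat.mul_eq_zero.mp h8 with h9 | h9
      · rw [h9, Finsupp.single_apply, if_neg (Ne.symm hk)]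
      · exact absurd h9 (hw k).ne'
  have h8 : monomial s (coeff s p) = coeff s p • (X i : MvPolynomial (Fin n) ℂ) := by
    rw [h7, X, smul_monomial]; simp
  rw [h8]
  exact Submodule.smul_mem _ _ (Submodule.subset_span ⟨i, (mul_eq_one.mp h5).2, rfl⟩)

theorem eq_zero_of_mem {n c : ℕ} {w : Fin n → ℕ} (f : Fin c → MvPolynomial (Fin n) ℂ)
    (δ : Fin c → ℕ) (hδ : ∀ j, 2 ≤ δ j) (hf : ∀ j, IsWeightedHomogeneous w (f j) (δ j))
    {p : MvPolynomial (Fin n) ℂ} (hp : IsWeightedHomogeneous w p 1)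
    (hpI : p ∈ Ideal.span (Set.range f)) : p = 0 := by
  have h1 : ∀ x ∈ Ideal.span (Set.range f), ∀ a, weightedHomogeneousComponent w 1 (a * x) = 0 := by
    intro x hx
    refine Submodule.span_induction
      (p := fun x _ => ∀ a, weightedHomogeneousComponent w 1 (a * x) = 0) ?_ ?_ ?_ ?_ hx
    · rintro _ ⟨j, rfl⟩ a
      induction a using MvPolynomial.monomial_add_induction_on with
      | C a =>
        have h2 : IsWeightedHomogeneous w (C a * f j) (0 + δ j) :=
          (isWeightedHomogeneous_C w a).mul (hf j)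
        exact h2.weightedHomogeneousComponent_ne 1 (by have := hδ j; omega)
      | monomial_add s b q _ _ ih =>
        rw [add_mul, map_add, ih, add_zero]
        have h2 : IsWeightedHomogeneous w (monomial s b * f j) (Finsupp.weight w s + δ j) :=
          (isWeightedHomogeneous_monomial w s b rfl).mul (hf j)
        exact h2.weightedHomogeneousComponent_ne 1 (by have := hδ j; omega)
    · intro a; simp
    · intro x y _ _ hx hy a
      rw [mul_add, map_add, hx, hy, add_zero]
    · intro r x _ hx a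
      rw [smul_eq_mul, ← mul_assoc]
      exact hx _
  have h2 := h1 p hpI 1
  rw [one_mul, hp.weightedHomogeneousComponent_same] at h2
  exact h2

end Pool.Agent.H964R2.Core
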